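import Pool.Agent.Helper50.Tm.Goals2

/-!
# Packet TW-CHARTV: affine charts inside a given open set
-/

set_option autoImplicit false

open CategoryTheory AlgebraicGeometry Limits TensorProduct MonoidalCategory
open scoped Obj

namespace Pool.Agent.Helper2.Tm

open Pool.Agent.Helper50.Tm

theorem gCHARTV : Pool.Agent.Helper50.Tm.CHARTV := by
  intro S _ _ G hG V x hx
  obtain ⟨R, f, hf, hxf, hfV⟩ := AlgebraicGeometry.Scheme.exists_affine_mem_range_and_range_subset hx
  have hφ : Spec.map (Spec.preimage (f ≫ G.hom)) = f ≫ G.hom := Spec.map_preimage _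
  let φ : CommRingCat.of S ⟶ R := Spec.preimage (f ≫ G.hom)
  letI : Algebra S R := φ.hom.toAlgebra
  have hφ1 : CommRingCat.ofHom (algebraMap S R) = φ := rfl
  have hφ2 : Spec.map (CommRingCat.ofHom (algebraMap S R)) = f ≫ G.hom := hφ
  let j : Pts G R := Over.homMk (U := SpecA S R) (V := G) f hφ2.symm
  have hj : j.left = f := rfl
  refine ⟨R, inferInstance, inferInstance, j, ?_, hf, hxf, hfV, ?_, ?_⟩
  · have h1 : Smooth (Spec.map (CommRingCat.ofHom (algebraMap S R))) := by
      rw [hφ2]
      infer_instance
    have h2 := (HasRingHomProperty.Spec_iff (P := @Smooth)).1 h1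
    exact RingHom.smooth_algebraMap.1 h2
  · intro s hs
    have hsU : ∀ p, s.left p ∈ Set.range f := by
      have h1 := (IsLocalRing.closedPoint_mem_iff (s.left ⁻¹ᵁ f.opensRange)).1 hs
      intro p
      have h2 : p ∈ s.left ⁻¹ᵁ f.opensRange := by
        rw [h1]
        trivial
      exact h2
    have hr : Set.range s.left ⊆ Set.range f := by
      rintro _ ⟨p, rfl⟩
      exact hsU p
    let l := IsOpenImmersion.lift f s.left hr
    have hl : l ≫ f = s.left := IsOpenImmersion.lift_fac _ _ _
    have hψ : Spec.map (Spec.preimage l) = l := Spec.map_preimage _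
    have hw : s.left ≫ G.hom = Spec.map (CommRingCat.ofHom (algebraMap S S)) := Over.w s
    have hc : φ ≫ Spec.preimage l = CommRingCat.ofHom (algebraMap S S) := by
      apply Spec.map_injective
      rw [Spec.map_comp, hψ, hφ, ← Category.assoc, hl, hw]
    let ψ : R →ₐ[S] S :=
      { (Spec.preimage l).hom with
        commutes' := fun a => by
          have := congrArg (fun g => g.hom a) hc
          exact this }
    refine ⟨ψ, ?_⟩
    apply Over.OverMorphism.ext
    change Spec.map (Spec.preimage l) ≫ f = s.left
    rw [hψ, hl]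
  · intro A _ _ ψ ψ' h
    have h1 : Spec.map (CommRingCat.ofHom ψ.toRingHom) ≫ f =
        Spec.map (CommRingCat.ofHom ψ'.toRingHom) ≫ f := congrArg (fun g => g.left) h
    have h2 := Spec.map_injective ((cancel_mono f).1 h1)
    have h3 : ψ.toRingHom = ψ'.toRingHom := congrArg (fun g => g.hom) h2
    ext a
    exact congrArg (fun g => g a) h3

end Pool.Agent.Helper2.Tm
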